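import Pool.Agent.Helper89.GP.GoalsA

/-!
Packet 8786 (GP-RW5) of MP_480c30_co: the statement `Rw5Stmt` of Helper89/GP/GoalsA.lean.
-/

namespace Pool.Agent.Helper81.GP

open Finset

/-- Splitting off the first four terms of a finitely supported sum. -/
theorem sum_split4 (n : ℕ) (f : ℕ → ℝ) (hf : ∀ k, n ≤ k → f k = 0) :
    ∑ k ∈ range n, f k = ∑ k ∈ range n, f (k + 4) + f 3 + f 2 + f 1 + f 0 := by
  have h1 : ∑ k ∈ range n, f k = ∑ k ∈ range (n + 4), f k := by
    apply Finset.sum_subset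
    · intro x hx
      simp only [mem_range] at hx ⊢
      omega
    · intro x _ hx
      apply hf
      simp only [mem_range] at hx
      omega
  rw [h1, Finset.sum_range_succ', Finset.sum_range_succ', Finset.sum_range_succ',
    Finset.sum_range_succ']

theorem rw5 : Pool.Agent.Helper89.GP.Rw5Stmt := by
  intro n b A c N hb hb0 hc hA hbc hb1 hsum hN hF
  have hs : 0 < c / A := div_pos hc hA
  set s : ℝ := c / A with hsdef
  have hcs : c = s * A := by
    rw [hsdef]; field_simp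
  -- first sum
  have e1 := sum_split4 n b hb0
  have e2 := sum_split4 n (fun k => ((k : ℝ) + 1) * b k) (fun k hk => by simp [hb0 k hk])
  have e3 := sum_split4 n (fun k => b k * (3 / 2 : ℝ) ^ k / (k.factorial : ℝ))
    (fun k hk => by simp [hb0 k hk])
  have hT := hF (3 / 2) (by norm_num)
  have e2' : ∑ k ∈ range n, (((k + 4 : ℕ) : ℝ) + 1) * b (k + 4) ≥
      5 * ∑ k ∈ range n, b (k + 4) := by
    rw [Finset.mul_sum]
    apply Finset.sum_le_sum
    intro k _
    apply mul_le_mul_of_nonneg_right _ (hb _)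
    push_cast
    have : (0 : ℝ) ≤ (k : ℝ) := Nat.cast_nonneg k
    linarith
  have e3' : 0 ≤ ∑ k ∈ range n, b (k + 4) * (3 / 2 : ℝ) ^ (k + 4) / ((k + 4).factorial : ℝ) := by
    apply Finset.sum_nonneg
    intro k _
    have := hb (k + 4)
    positivity
  rw [e3] at hT
  rw [e1] at hsum
  rw [e2]
  set E : ℝ := Real.exp (3 / 2 * (1 + s)) with hE
  have hE' : Real.exp ((1 + s) * (3 / 2)) = E := by
    rw [hE]; congr 1; ring
  rw [hE'] at hT
  have f3 : ((3 : ℕ).factorial : ℝ) = 6 := by norm_num [Nat.factorial]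
  have f2 : ((2 : ℕ).factorial : ℝ) = 2 := by norm_num [Nat.factorial]
  have f1 : ((1 : ℕ).factorial : ℝ) = 1 := by norm_num [Nat.factorial]
  have f0 : ((0 : ℕ).factorial : ℝ) = 1 := by norm_num [Nat.factorial]
  have hT' : b 3 * (9 / 16) + b 2 * (9 / 8) + b 1 * (3 / 2) + b 0 ≤ c * E := by
    have : b 3 * (3 / 2 : ℝ) ^ 3 / ((3 : ℕ).factorial : ℝ) +
        b 2 * (3 / 2 : ℝ) ^ 2 / ((2 : ℕ).factorial : ℝ) +
        b 1 * (3 / 2 : ℝ) ^ 1 / ((1 : ℕ).factorial : ℝ) +
        b 0 * (3 / 2 : ℝ) ^ 0 / ((0 : ℕ).factorial : ℝ) ≤ c * E := by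
      linarith
    rw [f3, f2, f1, f0] at this
    norm_num at this
    linarith
  have hNle : N ≤ A * (1 / s) := by
    have h1 : A * (1 / s) = A ^ 2 / c := by
      rw [hsdef]; field_simp
    rw [h1, le_div_iff₀ hc]
    linarith
  have key : A * (5 + s * (16 / 9 * E + 20 / 9 + (1 + s) / 3) + 1 / s) =
      5 * A + c * (16 / 9 * E + 20 / 9 + (1 + s) / 3) + A * (1 / s) := by
    rw [hcs]; ring
  have key2 : c * (16 / 9 * E + 20 / 9 + (1 + s) / 3) =
      16 / 9 * (c * E) + 20 / 9 * c + ((1 + s) * c) / 3 := by ring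
  rw [key, key2]
  push_cast
  push_cast at e2'
  linarith

end Pool.Agent.Helper81.GP
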